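import Pool.Agent.W21.RV.Defs

set_option autoImplicit false

namespace Pool.Agent.W289.RV

open Finset
open Pool.Agent.W23.DC Pool.Agent.W21.RV

theorem tt_lt_iff {N : ℕ} (hN : 2 ≤ N) {p : ℕ} (hp : 0 < p) (u : ℝ) :
    tt N p < u ↔ (p : ℝ) < (N : ℝ) ^ u := by
  have hL : 0 < Real.log N := Real.log_pos (by exact_mod_cast (by omega : 1 < N))
  have hN0 : (0 : ℝ) < N := by exact_mod_cast (by omega : 0 < N)
  have hp0 : (0 : ℝ) < p := by exact_mod_cast hp
  unfold tt
  rw [div_lt_iff₀ hL, ← Real.log_rpow hN0, Real.log_lt_log_iff hp0 (Real.rpow_pos_of_pos hN0 _)]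

theorem le_tt_iff {N : ℕ} (hN : 2 ≤ N) {p : ℕ} (hp : 0 < p) (u : ℝ) :
    u ≤ tt N p ↔ (N : ℝ) ^ u ≤ (p : ℝ) := by
  rw [← not_lt, ← not_lt, tt_lt_iff hN hp]

theorem mem_pr' {N : ℕ} (hN : 2 ≤ N) {u v : ℝ} (hv : v ≤ 1) {q : ℕ} (hq : q.Prime)
    (h1 : (N : ℝ) ^ u ≤ q) (h2 : (q : ℝ) < (N : ℝ) ^ v) : q ∈ pr N u v := by
  unfold pr
  rw [mem_filter, mem_Icc]
  have hN1 : (1 : ℝ) ≤ N := by exact_mod_cast (by omega : 1 ≤ N)
  refine ⟨⟨hq.pos, ?_⟩, hq, (le_tt_iff hN hq.pos _).2 h1, (tt_lt_iff hN hq.pos _).2 h2⟩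
  have h3 : (N : ℝ) ^ v ≤ N := by
    calc (N : ℝ) ^ v ≤ (N : ℝ) ^ (1 : ℝ) := Real.rpow_le_rpow_of_exponent_le hN1 hv
      _ = N := Real.rpow_one _
  exact_mod_cast (h2.le.trans h3)

theorem sum_tt {N : ℕ} (l : List ℕ) (hl : ∀ q ∈ l, q ≠ 0) :
    (l.map (tt N)).sum = Real.log (l.prod : ℕ) / Real.log N := by
  induction l with
  | nil => simp
  | cons a t ih =>
    have h1 : (a : ℝ) ≠ 0 := by exact_mod_cast hl a (by simp)
    have h2 : ((t.prod : ℕ) : ℝ) ≠ 0 := by
      have : t.prod ≠ 0 := List.prod_ne_zero (by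
        intro h0
        exact hl 0 (by simp [h0]) rfl)
      exact_mod_cast this
    rw [List.map_cons, List.sum_cons, ih (fun q hq => hl q (by simp [hq])), List.prod_cons,
      Nat.cast_mul, Real.log_mul h1 h2, add_div]
    rfl

theorem sum_le_filter (f : ℕ → ℝ) (P : ℕ → Prop) [DecidablePred P] (l : List ℕ)
    (hl : ∀ q ∈ l, ¬ P q → f q ≤ 0) : (l.map f).sum ≤ ((l.filter (fun q => P q)).map f).sum := by
  induction l with
  | nil => simp
  | cons a t ih =>
    have h1 := ih (fun q hq => hl q (by simp [hq]))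
    by_cases ha : P a
    · rw [List.filter_cons_of_pos (by simpa using ha), List.map_cons, List.map_cons, List.sum_cons,
        List.sum_cons]
      linarith
    · rw [List.filter_cons_of_neg (by simpa using ha), List.map_cons, List.sum_cons]
      have := hl a (by simp) ha
      linarith

theorem sum_f {N : ℕ} (l : List ℕ) :
    (l.map (fun q => 1 - 5 / 2 * tt N q)).sum = l.length - 5 / 2 * (l.map (tt N)).sum := by
  induction l with
  | nil => simp
  | cons a t ih =>
    rw [List.map_cons, List.sum_cons, ih, List.map_cons, List.sum_cons, List.length_cons]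
    push_cast
    ring

theorem ST : St_ST := by
  classical
  obtain ⟨N₀, hN₀⟩ : ∃ N₀ : ℕ, ∀ N : ℕ, N₀ ≤ N → 1000 ≤ Real.log (N : ℝ) := by
    have := (Real.tendsto_log_atTop.comp (tendsto_natCast_atTop_atTop (R := ℝ))).eventually_ge_atTop
      1000
    exact Filter.eventually_atTop.1 this
  refine ⟨max N₀ 2, ?_⟩
  intro N hN ε₁ n hn0 hn2 hW hsq
  have hN2 : 2 ≤ N := (le_max_right _ _).trans hN
  have hlog := hN₀ N ((le_max_left _ _).trans hN)
  have hN1 : (1 : ℝ) ≤ N := by exact_mod_cast (by omega : 1 ≤ N)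
  have hN0 : (0 : ℝ) < N := by linarith
  -- the sieve condition
  have hI : ∀ p ∈ pr N ε₁ (1 / 8), ¬ p ∣ n := by
    by_contra h
    unfold Wf at hW
    rw [if_neg h, zero_mul] at hW
    exact lt_irrefl _ hW
  have hS1 : ∑ q ∈ pr N (1 / 8) (2 / 5), cw N q * (if q ∣ n then 1 else 0) < 1 := by
    unfold Wf at hW
    rw [if_pos hI, one_mul] at hW
    linarith
  -- the large prime factors
  set y : ℝ := (N : ℝ) ^ (1 / 8 : ℝ) with hy
  set l1 : List ℕ := n.primeFactorsList.filter (fun q => y ≤ (q : ℝ)) with hl1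
  set l2 : List ℕ := n.primeFactorsList.filter (fun q => ¬ y ≤ (q : ℝ)) with hl2
  have hm1 : ∀ q ∈ l1, q.Prime ∧ q ∣ n ∧ y ≤ q := by
    intro q hq
    rw [hl1, List.mem_filter] at hq
    exact ⟨Nat.prime_of_mem_primeFactorsList hq.1, Nat.dvd_of_mem_primeFactorsList hq.1,
      by simpa using hq.2⟩
  have hm2 : ∀ q ∈ l2, q.Prime ∧ q ∣ n ∧ ¬ y ≤ q := by
    intro q hq
    rw [hl2, List.mem_filter] at hq
    exact ⟨Nat.prime_of_mem_primeFactorsList hq.1, Nat.dvd_of_mem_primeFactorsList hq.1,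
      by simpa using hq.2⟩
  have hprod : n = l2.prod * l1.prod := by
    conv_lhs => rw [← Nat.prod_primeFactorsList hn0]
    rw [mul_comm, hl1, hl2]
    have := List.filter_append_perm (fun q : ℕ => decide (y ≤ (q : ℝ))) n.primeFactorsList
    rw [← this.prod_eq, List.prod_append]
    congr 3
    ext q
    by_cases h : y ≤ (q : ℝ)
    · simp [h, not_lt.2 h]
    · simp [h, not_le.1 h]
  have hs : l1.Perm (l1.prod).primeFactorsList :=
    Nat.primeFactorsList_unique rfl (fun q hq => (hm1 q hq).1)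
  have hmm : l2.Perm (l2.prod).primeFactorsList :=
    Nat.primeFactorsList_unique rfl (fun q hq => (hm2 q hq).1)
  have hs0 : l1.prod ≠ 0 := by
    intro h0; apply hn0; rw [hprod, h0, mul_zero]
  have hm0 : l2.prod ≠ 0 := by
    intro h0; apply hn0; rw [hprod, h0, zero_mul]
  refine ⟨l2.prod, l1.prod, hprod, ?_, ?_, ?_⟩
  · intro l hl hlm
    have h1 : l ∈ l2 := hmm.mem_iff.2 ((Nat.mem_primeFactorsList hm0).2 ⟨hl, hlm⟩)
    obtain ⟨-, h2, h3⟩ := hm2 l h1
    by_contra hge
    rw [not_lt] at hge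
    exact hI l (mem_pr' hN2 (by norm_num) hl hge (not_le.1 h3)) h2
  · rw [← hs.length_eq]
    by_contra hgt
    have h6 : (6 : ℝ) ≤ l1.length := by exact_mod_cast (by omega : 6 ≤ l1.length)
    -- sum of sizes
    have hsz : (l1.map (tt N)).sum ≤ 2 + 1 / 1000 := by
      rw [sum_tt l1 (fun q hq => (hm1 q hq).1.ne_zero), div_le_iff₀ (by linarith)]
      have h5 : ((l1.prod : ℕ) : ℝ) ≤ 2 * (N : ℝ) ^ 2 := by
        have : l1.prod ≤ n := Nat.le_of_dvd (Nat.pos_of_ne_zero hn0) ⟨l2.prod, by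
          rw [mul_comm]; exact hprod⟩
        exact_mod_cast this.trans hn2
      have h6 : Real.log ((l1.prod : ℕ) : ℝ) ≤ Real.log (2 * (N : ℝ) ^ 2) :=
        Real.log_le_log (by exact_mod_cast Nat.pos_of_ne_zero hs0) h5
      rw [Real.log_mul (by norm_num) (by positivity), Real.log_pow] at h6
      have h7 := Real.log_two_lt_d9
      have h20 : ((2 : ℕ) : ℝ) = 2 := by norm_num
      rw [h20] at h6
      linarith
    have h8 := sum_f (N := N) l1
    have h9 := sum_le_filter (fun q => 1 - 5 / 2 * tt N q) (fun q => (q : ℝ) < (N : ℝ) ^ (2 / 5 : ℝ))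
      l1 (by
        intro q hq hq2
        have := (le_tt_iff hN2 (hm1 q hq).1.pos (2 / 5)).2 (not_lt.1 hq2)
        show 1 - 5 / 2 * tt N q ≤ 0
        linarith)
    set l3 : List ℕ := l1.filter (fun q => (q : ℝ) < (N : ℝ) ^ (2 / 5 : ℝ)) with hl3
    have hm3 : ∀ q ∈ l3, q.Prime ∧ q ∣ n ∧ y ≤ q ∧ (q : ℝ) < (N : ℝ) ^ (2 / 5 : ℝ) := by
      intro q hq
      rw [hl3, List.mem_filter] at hq
      obtain ⟨a1, a2, a3⟩ := hm1 q hq.1
      exact ⟨a1, a2, a3, by simpa using hq.2⟩
    have hnd : l3.Nodup := by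
      rw [List.nodup_iff_count_le_one]
      intro q
      by_contra hc
      rw [not_le] at hc
      have hq : q ∈ l3 := List.count_pos_iff.1 (by omega)
      obtain ⟨a1, a2, a3, a4⟩ := hm3 q hq
      apply hsq q a1 a3 a4
      have h10 : l3.count q ≤ n.primeFactorsList.count q := by
        refine List.Sublist.count_le _ ?_
        rw [hl3, hl1]
        exact (List.filter_sublist).trans (List.filter_sublist)
      rw [Nat.primeFactorsList_count_eq] at h10
      exact (a1.pow_dvd_iff_le_factorization hn0).2 (by omega)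
    have h10 : (l3.map (fun q => 1 - 5 / 2 * tt N q)).sum =
        ∑ q ∈ l3.toFinset, (1 - 5 / 2 * tt N q) := (List.sum_toFinset _ hnd).symm
    have h11 : ∑ q ∈ l3.toFinset, (1 - 5 / 2 * tt N q) ≤
        20 / 21 * ∑ q ∈ pr N (1 / 8) (2 / 5), cw N q * (if q ∣ n then 1 else 0) := by
      rw [Finset.mul_sum]
      have h12 : ∑ q ∈ l3.toFinset, (1 - 5 / 2 * tt N q) =
          ∑ q ∈ l3.toFinset, 20 / 21 * (cw N q * (if q ∣ n then 1 else 0)) := by
        apply Finset.sum_congr rfl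
        intro q hq
        rw [List.mem_toFinset] at hq
        rw [if_pos (hm3 q hq).2.1]
        unfold cw
        ring
      rw [h12]
      apply Finset.sum_le_sum_of_subset_of_nonneg
      · intro q hq
        rw [List.mem_toFinset] at hq
        obtain ⟨a1, a2, a3, a4⟩ := hm3 q hq
        exact mem_pr' hN2 (by norm_num) a1 a3 a4
      · intro q hq _
        have h13 : 0 ≤ cw N q := by
          unfold pr at hq
          rw [mem_filter] at hq
          unfold cw
          have := hq.2.2.2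
          have : tt N q / (2 / 5) ≤ 1 := by
            rw [div_le_one (by norm_num)]
            exact this.le
          linarith
        split_ifs
        · linarith
        · simp
    linarith
  · intro q hq
    have h1 : q ∈ l1 := hs.mem_iff.2 (Nat.mem_primeFactors_iff_mem_primeFactorsList.1 hq)
    exact (hm1 q h1).2.2

end Pool.Agent.W289.RV
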